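import Pool.Agent.H78R2.Abc.Cubes

/-! Helper file for Philippon's conjecture: heights, the p-adic sum, the signed abc inequality. -/

namespace Pool.Agent.H78R2.Phil

open Pool.Agent.H78R2.Abc

/-- The logarithmic height of a rational. -/
noncomputable def ht (r : ℚ) : ℝ := Real.log (max |(r.num : ℝ)| (r.den : ℝ))

/-- The primes `p` with `|r|_p < 1`. -/
def S (r : ℚ) : Set ℕ := {p : ℕ | p.Prime ∧ padicNorm p r < 1}

/-- Philippon's inequality with the constants `ε, α, β, B`. -/
def Ineq (ε α β : ℝ) (B : ℕ) : Prop :=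
  ∀ x y : ℚ, x ≠ 0 → y ≠ 0 → x * y ^ B ≠ 1 → x * y ^ B + 1 ≠ 0 →
    -(∑ᶠ p ∈ S (x * y ^ B + 1), Real.log ((padicNorm p (x * y ^ B + 1) : ℚ) : ℝ)) ≤
      (B : ℝ) * (α * ht x + ε * ht y +
        (α * (B : ℝ) + ε) * (β + ∑ᶠ p ∈ S (x * y ^ B + 1), Real.log (p : ℝ)))

lemma ht_nonneg (r : ℚ) : 0 ≤ ht r := by
  unfold ht
  apply Real.log_nonneg
  have : (1 : ℝ) ≤ r.den := by exact_mod_cast r.pos
  exact this.trans (le_max_right _ _)

lemma S_eq {r : ℚ} (hr : r ≠ 0) : S r = (r.num.natAbs.primeFactors : Set ℕ) := by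
  ext p
  simp only [S, Set.mem_setOf_eq, Finset.mem_coe, Nat.mem_primeFactors]
  have hnum : r.num ≠ 0 := Rat.num_ne_zero.2 hr
  constructor
  · rintro ⟨hp, h⟩
    haveI := Fact.mk hp
    refine ⟨hp, ?_, by simpa using hnum⟩
    by_contra hnd
    have h1 : padicNorm p (r.num : ℚ) = 1 := by
      rw [padicNorm.int_eq_one_iff]
      intro h2
      exact hnd (Int.natCast_dvd.1 h2)
    have h2 : padicNorm p (r.den : ℚ) ≤ 1 := by
      have := padicNorm.of_int (p := p) (r.den : ℤ)
      simpa using this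
    have h3 : padicNorm p r * padicNorm p (r.den : ℚ) = 1 := by
      rw [← padicNorm.mul, Rat.mul_den_eq_num, h1]
    have h4 : 0 ≤ padicNorm p (r.den : ℚ) := padicNorm.nonneg _
    have h5 : 0 ≤ padicNorm p r := padicNorm.nonneg _
    nlinarith
  · rintro ⟨hp, hdvd, -⟩
    haveI := Fact.mk hp
    refine ⟨hp, ?_⟩
    have hden : ¬ p ∣ r.den := fun h =>
      hp.one_lt.ne' (Nat.dvd_one.1 (r.reduced ▸ Nat.dvd_gcd hdvd h))
    have h1 : padicNorm p (r.num : ℚ) < 1 := by
      rw [padicNorm.int_lt_one_iff]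
      exact Int.natCast_dvd.2 hdvd
    have h2 : padicNorm p (r.den : ℚ) = 1 := by
      have := (padicNorm.int_eq_one_iff (p := p) (r.den : ℤ)).2 (by
        intro h; exact hden (Int.natCast_dvd_natCast.1 h))
      simpa using this
    have h3 : padicNorm p r * padicNorm p (r.den : ℚ) = padicNorm p (r.num : ℚ) := by
      rw [← padicNorm.mul, Rat.mul_den_eq_num]
    rw [h2, mul_one] at h3
    rwa [h3]

lemma padicNorm_eq {r : ℚ} (hr : r ≠ 0) {p : ℕ} (hp : p ∈ r.num.natAbs.primeFactors) :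
    Real.log ((padicNorm p r : ℚ) : ℝ) =
      -((r.num.natAbs.factorization p : ℝ) * Real.log p) := by
  rw [Nat.mem_primeFactors] at hp
  obtain ⟨hp, hdvd, hn⟩ := hp
  haveI := Fact.mk hp
  have hden : ¬ p ∣ r.den := fun h =>
    hp.one_lt.ne' (Nat.dvd_one.1 (r.reduced ▸ Nat.dvd_gcd hdvd h))
  have h1 : padicValRat p r = (r.num.natAbs.factorization p : ℤ) := by
    unfold padicValRat
    rw [padicValNat.eq_zero_of_not_dvd hden, Nat.factorization_def _ hp]
    simp [padicValInt]
  rw [padicNorm.eq_zpow_of_nonzero hr, h1]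
  push_cast
  rw [Real.log_zpow]
  push_cast
  ring

lemma log_eq_sum {n : ℕ} (hn : n ≠ 0) :
    Real.log n = ∑ p ∈ n.primeFactors, (n.factorization p : ℝ) * Real.log p := by
  conv_lhs => rw [← Nat.prod_factorization_pow_eq_self hn]
  rw [Finsupp.prod, Nat.support_factorization]
  push_cast
  rw [Real.log_prod]
  · exact Finset.sum_congr rfl fun p _ => by rw [Real.log_pow]
  · intro p hp
    have := (Nat.prime_of_mem_primeFactors hp).pos
    positivity

lemma lhs_eq {r : ℚ} (hr : r ≠ 0) :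
    -(∑ᶠ p ∈ S r, Real.log ((padicNorm p r : ℚ) : ℝ)) = Real.log r.num.natAbs := by
  have hn : r.num.natAbs ≠ 0 := by simpa using hr
  rw [S_eq hr, finsum_mem_coe_finset, log_eq_sum hn, ← Finset.sum_neg_distrib]
  refine Finset.sum_congr rfl fun p hp => ?_
  rw [padicNorm_eq hr hp, neg_neg]

lemma rad_sum {r : ℚ} (hr : r ≠ 0) :
    ∑ᶠ p ∈ S r, Real.log (p : ℝ) = Real.log (rad r.num.natAbs) := by
  rw [S_eq hr, finsum_mem_coe_finset]
  unfold rad
  push_cast
  rw [Real.log_prod]
  · rfl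
  · intro p hp
    have := (Nat.prime_of_mem_primeFactors hp).pos
    simpa using this.ne'

lemma num_add_one (r : ℚ) : (r + 1).num = r.num + r.den := by
  have h1 : (r + 1).den = r.den := by
    have := Rat.add_natCast_den r 1
    simpa using this
  have h2 : ((r + 1).num : ℚ) = r.num + r.den := by
    rw [← Rat.mul_den_eq_num (r + 1), h1, add_mul, one_mul, Rat.mul_den_eq_num]
  exact_mod_cast h2

/-- The weak form of the abc conjecture: `c` is bounded by some power of the radical. -/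
def WeakAbc : Prop := ∃ K κ : ℝ, ∀ a b c : ℕ, 0 < a → 0 < b → Nat.Coprime a b → a + b = c →
  (c : ℝ) ≤ κ * (rad (a * b * c) : ℝ) ^ K

/-- abc with exponent `K` and constant `κ`. -/
def AbcWith (K κ : ℝ) : Prop := ∀ a b c : ℕ, 0 < a → 0 < b → Nat.Coprime a b → a + b = c →
  (c : ℝ) ≤ κ * (rad (a * b * c) : ℝ) ^ K

/-- signed form: `A + C = N` -/
lemma signed {K κ : ℝ} (h : AbcWith K κ) {A : ℤ} {C : ℕ} (hA : A ≠ 0) (hC : 0 < C)
    (hAC : Nat.Coprime A.natAbs C) (hN : A + C ≠ 0) :
    ((A.natAbs : ℝ) ≤ κ * (rad (A.natAbs * C * (A + C).natAbs) : ℝ) ^ K) ∧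
    ((C : ℝ) ≤ κ * (rad (A.natAbs * C * (A + C).natAbs) : ℝ) ^ K) ∧
    (((A + C).natAbs : ℝ) ≤ κ * (rad (A.natAbs * C * (A + C).natAbs) : ℝ) ^ K) := by
  have hA' : 0 < A.natAbs := Int.natAbs_pos.2 hA
  have hN' : 0 < (A + C).natAbs := Int.natAbs_pos.2 hN
  -- the largest of the three is the sum of the other two
  rcases lt_or_ge 0 A with hpos | hneg
  · have e : A.natAbs + C = (A + C).natAbs := by omega
    have := h _ _ _ hA' hC hAC e
    have h1 : (A.natAbs : ℝ) ≤ ((A + C).natAbs : ℝ) := by exact_mod_cast (by omega)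
    have h2 : (C : ℝ) ≤ ((A + C).natAbs : ℝ) := by exact_mod_cast (by omega)
    exact ⟨h1.trans this, h2.trans this, this⟩
  · rcases lt_or_ge 0 (A + C) with hp | hn
    · have e : A.natAbs + (A + C).natAbs = C := by omega
      have hcop : Nat.Coprime A.natAbs (A + C).natAbs := by
        rw [← e] at hAC
        simpa using hAC
      have := h _ _ _ hA' hN' hcop e
      rw [show A.natAbs * (A + C).natAbs * C = A.natAbs * C * (A + C).natAbs by ring] at this
      have h1 : (A.natAbs : ℝ) ≤ (C : ℝ) := by exact_mod_cast (by omega)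
      have h2 : ((A + C).natAbs : ℝ) ≤ (C : ℝ) := by exact_mod_cast (by omega)
      exact ⟨h1.trans this, this, h2.trans this⟩
    · have e : C + (A + C).natAbs = A.natAbs := by omega
      have hcop : Nat.Coprime C (A + C).natAbs := by
        rw [← e] at hAC
        have := hAC.symm
        simpa using this
      have := h _ _ _ hC hN' hcop e
      rw [show C * (A + C).natAbs * A.natAbs = A.natAbs * C * (A + C).natAbs by ring] at this
      have h1 : (C : ℝ) ≤ (A.natAbs : ℝ) := by exact_mod_cast (by omega)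
      have h2 : ((A + C).natAbs : ℝ) ≤ (A.natAbs : ℝ) := by exact_mod_cast (by omega)
      exact ⟨this, h1.trans this, h2.trans this⟩

lemma num_dvd (x y : ℚ) (B : ℕ) : (x * y ^ B).num.natAbs ∣ x.num.natAbs * y.num.natAbs ^ B := by
  have h : (x * y ^ B).num ∣ x.num * (y ^ B).num := Dvd.intro _ (Rat.num_mul_num_eq_num_mul_gcd x (y ^ B)).symm
  rw [Rat.num_pow] at h
  have := Int.natAbs_dvd_natAbs.2 h
  rwa [Int.natAbs_mul, Int.natAbs_pow] at this

lemma den_dvd (x y : ℚ) (B : ℕ) : (x * y ^ B).den ∣ x.den * y.den ^ B := by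
  have h : (x * y ^ B).den ∣ x.den * (y ^ B).den := Rat.mul_den_dvd _ _
  rwa [Rat.den_pow] at h

lemma rad_pow_le (n B : ℕ) (hn : n ≠ 0) : rad (n ^ B) ≤ n := by
  rcases Nat.eq_zero_or_pos B with rfl | hB
  · have : rad (n ^ 0) = 1 := by simp [rad]
    rw [this]; exact Nat.pos_of_ne_zero hn
  · rw [rad_eq_of_primeFactors (Nat.primeFactors_pow n hB.ne')]
    exact rad_le hn

/-- log of the radical of numerator times denominator of `x y^B` -/
lemma log_rad_le {x y : ℚ} (hx : x ≠ 0) (hy : y ≠ 0) (B : ℕ) {N : ℕ} (hN : N ≠ 0) :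
    Real.log (rad ((x * y ^ B).num.natAbs * (x * y ^ B).den * N)) ≤
      2 * ht x + 2 * ht y + Real.log (rad N) := by
  have hxn : x.num.natAbs ≠ 0 := by simpa using hx
  have hyn : y.num.natAbs ≠ 0 := by simpa using hy
  have hxd := x.den_nz
  have hyd := y.den_nz
  have hr : x * y ^ B ≠ 0 := mul_ne_zero hx (pow_ne_zero _ hy)
  have hrn : (x * y ^ B).num.natAbs ≠ 0 := by
    rw [Int.natAbs_ne_zero]; exact Rat.num_ne_zero.2 hr
  have h1 : rad (x * y ^ B).num.natAbs ≤ x.num.natAbs * y.num.natAbs :=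
    (rad_le_of_dvd (num_dvd x y B) (mul_ne_zero hxn (pow_ne_zero _ hyn))).trans
      ((rad_mul_le hxn (pow_ne_zero _ hyn)).trans
        (Nat.mul_le_mul (rad_le hxn) (rad_pow_le _ _ hyn)))
  have h2 : rad (x * y ^ B).den ≤ x.den * y.den :=
    (rad_le_of_dvd (den_dvd x y B) (mul_ne_zero hxd (pow_ne_zero _ hyd))).trans
      ((rad_mul_le hxd (pow_ne_zero _ hyd)).trans
        (Nat.mul_le_mul (rad_le hxd) (rad_pow_le _ _ hyd)))
  have h3 : rad ((x * y ^ B).num.natAbs * (x * y ^ B).den * N) ≤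
      (x.num.natAbs * y.num.natAbs) * (x.den * y.den) * rad N := by
    refine (rad_mul_le (mul_ne_zero hrn (x * y ^ B).den_nz) hN).trans ?_
    refine Nat.mul_le_mul_right _ ?_
    exact (rad_mul_le hrn (x * y ^ B).den_nz).trans (Nat.mul_le_mul h1 h2)
  have hpos : 0 < rad ((x * y ^ B).num.natAbs * (x * y ^ B).den * N) := rad_pos _
  have h4 : Real.log (rad ((x * y ^ B).num.natAbs * (x * y ^ B).den * N)) ≤
      Real.log (((x.num.natAbs * y.num.natAbs) * (x.den * y.den) * rad N : ℕ) : ℝ) := by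
    apply Real.log_le_log (by exact_mod_cast hpos)
    exact_mod_cast h3
  refine h4.trans ?_
  have p1 : (0 : ℝ) < x.num.natAbs := by exact_mod_cast Nat.pos_of_ne_zero hxn
  have p2 : (0 : ℝ) < y.num.natAbs := by exact_mod_cast Nat.pos_of_ne_zero hyn
  have p3 : (0 : ℝ) < x.den := by exact_mod_cast x.pos
  have p4 : (0 : ℝ) < y.den := by exact_mod_cast y.pos
  have p5 : (0 : ℝ) < rad N := by exact_mod_cast rad_pos N
  push_cast
  rw [Real.log_mul (by positivity) (by positivity), Real.log_mul (by positivity) (by positivity),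
    Real.log_mul (by positivity) (by positivity), Real.log_mul (by positivity) (by positivity)]
  have e1 : Real.log (x.num.natAbs : ℝ) ≤ ht x := by
    apply Real.log_le_log p1
    rw [Nat.cast_natAbs]
    simp
  have e2 : Real.log (y.num.natAbs : ℝ) ≤ ht y := by
    apply Real.log_le_log p2
    rw [Nat.cast_natAbs]
    simp
  have e3 : Real.log (x.den : ℝ) ≤ ht x := Real.log_le_log p3 (le_max_right _ _)
  have e4 : Real.log (y.den : ℝ) ≤ ht y := Real.log_le_log p4 (le_max_right _ _)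
  linarith

/-- The abc inequality with exponent `K` gives the bounds for `x y^B + 1`. -/
lemma bounds {K κ : ℝ} (hκ : 1 ≤ κ) (h : AbcWith K κ) (hK : 0 ≤ K) {x y : ℚ} (hx : x ≠ 0)
    (hy : y ≠ 0) {B : ℕ} (hN : x * y ^ B + 1 ≠ 0) :
    ht (x * y ^ B) ≤ Real.log κ +
      K * (2 * ht x + 2 * ht y + Real.log (rad (x * y ^ B + 1).num.natAbs)) ∧
    Real.log ((x * y ^ B + 1).num.natAbs) ≤ Real.log κ +
      K * (2 * ht x + 2 * ht y + Real.log (rad (x * y ^ B + 1).num.natAbs)) := by
  set r := x * y ^ B with hr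
  have hr0 : r ≠ 0 := mul_ne_zero hx (pow_ne_zero _ hy)
  have hA : r.num ≠ 0 := Rat.num_ne_zero.2 hr0
  have hNn : r.num + r.den ≠ 0 := by
    rw [← num_add_one]; exact Rat.num_ne_zero.2 hN
  obtain ⟨h1, h2, h3⟩ := signed h hA r.pos r.reduced hNn
  rw [num_add_one]
  set N := (r.num + r.den).natAbs with hNdef
  have hN0 : N ≠ 0 := by rw [hNdef]; simpa using hNn
  set R : ℝ := (rad (r.num.natAbs * r.den * N) : ℝ) with hR
  have hRpos : 0 < R := by rw [hR]; exact_mod_cast rad_pos _
  have hlogR : Real.log R ≤ 2 * ht x + 2 * ht y + Real.log (rad N) := log_rad_le hx hy B hN0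
  have hlog : Real.log (κ * R ^ K) ≤ Real.log κ +
      K * (2 * ht x + 2 * ht y + Real.log (rad N)) := by
    rw [Real.log_mul (by positivity) (by positivity), Real.log_rpow hRpos]
    have := mul_le_mul_of_nonneg_left hlogR hK
    linarith
  constructor
  · refine le_trans ?_ hlog
    unfold ht
    apply Real.log_le_log
    · have : (0 : ℝ) < r.den := by exact_mod_cast r.pos
      exact lt_max_of_lt_right this
    · apply max_le
      · rw [Nat.cast_natAbs] at h1
        simpa using h1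
      · exact h2
  · refine le_trans ?_ hlog
    apply Real.log_le_log _ h3
    exact_mod_cast Nat.pos_of_ne_zero hN0

end Pool.Agent.H78R2.Phil
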