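import Pool.Agent.H78R2.Phil.Basic

/-! Helper file for Philippon's conjecture: the implications to and from the abc inequality. -/

namespace Pool.Agent.H78R2.Phil

open Pool.Agent.H78R2.Abc

/-- weak abc gives Philippon's inequality with `α = 1`, every `ε` and all large `B` -/
lemma ineq_of_abc {K κ : ℝ} (hK : 1 ≤ K) (hκ : 1 ≤ κ) (h : AbcWith K κ) {ε : ℝ} (hε : 0 < ε)
    (hε1 : ε ≤ 1) {B : ℕ} (hB : 2 * K ≤ ε * B) : Ineq ε 1 (Real.log κ) B := by
  intro x y hx hy _ hN
  obtain ⟨-, h2⟩ := bounds hκ h (by linarith) hx hy hN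
  rw [lhs_eq hN, rad_sum hN]
  refine h2.trans ?_
  have hB0 : (0 : ℝ) ≤ B := by positivity
  have hBK : 2 * K ≤ B := by nlinarith
  have hB2 : (2 : ℝ) ≤ B := by linarith
  have hhx := ht_nonneg x
  have hhy := ht_nonneg y
  have hlκ : 0 ≤ Real.log κ := Real.log_nonneg hκ
  have hR : 0 ≤ Real.log (rad (x * y ^ B + 1).num.natAbs) := by
    apply Real.log_nonneg
    exact_mod_cast rad_pos _
  set R := Real.log (rad (x * y ^ B + 1).num.natAbs)
  have e1 : 2 * K * ht x ≤ B * ht x := mul_le_mul_of_nonneg_right hBK hhx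
  have e2 : 2 * K * ht y ≤ ε * B * ht y := mul_le_mul_of_nonneg_right hB hhy
  have e3 : K ≤ B * (B + ε) := by nlinarith
  have e4 : K * R ≤ B * (B + ε) * R := mul_le_mul_of_nonneg_right e3 hR
  have e5 : (1 : ℝ) ≤ B * (B + ε) := by linarith
  have e6 : 1 * Real.log κ ≤ B * (B + ε) * Real.log κ := mul_le_mul_of_nonneg_right e5 hlκ
  nlinarith

/-- `B h(y) ≤ 2 h(x) + h(x y^B)` -/
lemma ht_lower {x y : ℚ} (hx : x ≠ 0) (hy : y ≠ 0) (B : ℕ) :
    B * ht y ≤ 2 * ht x + ht (x * y ^ B) := by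
  set r := x * y ^ B with hr
  have hr0 : r ≠ 0 := mul_ne_zero hx (pow_ne_zero _ hy)
  -- y^B = r / x
  have hnum : y.num.natAbs ^ B ∣ r.num.natAbs * x.den := by
    have h1 : y ^ B = r * x⁻¹ := by rw [hr]; field_simp
    have h2 : (r * x⁻¹).num ∣ r.num * (x⁻¹).num :=
      Dvd.intro _ (Rat.num_mul_num_eq_num_mul_gcd r x⁻¹).symm
    rw [← h1, Rat.num_pow] at h2
    have h3 := Int.natAbs_dvd_natAbs.2 h2
    rw [Int.natAbs_mul, Int.natAbs_pow] at h3
    have h4 : (x⁻¹).num.natAbs = x.den := by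
      rw [Rat.num_inv]
      rw [Int.natAbs_mul, Int.natAbs_sign_of_ne_zero (Rat.num_ne_zero.2 hx)]
      simp
    rwa [h4] at h3
  have hden : y.den ^ B ∣ r.den * x.num.natAbs := by
    have h1 : y ^ B = r * x⁻¹ := by rw [hr]; field_simp
    have h2 : (r * x⁻¹).den ∣ r.den * (x⁻¹).den := Rat.mul_den_dvd _ _
    rw [← h1, Rat.den_pow] at h2
    have h4 : (x⁻¹).den = x.num.natAbs := by
      rw [Rat.den_inv_of_ne_zero hx]
    rwa [h4] at h2
  have hrn : 0 < r.num.natAbs := Int.natAbs_pos.2 (Rat.num_ne_zero.2 hr0)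
  have hxn : 0 < x.num.natAbs := Int.natAbs_pos.2 (Rat.num_ne_zero.2 hx)
  have hyn : 0 < y.num.natAbs := Int.natAbs_pos.2 (Rat.num_ne_zero.2 hy)
  have l1 : B * Real.log y.num.natAbs ≤ Real.log r.num.natAbs + Real.log x.den := by
    have h0 : (0 : ℝ) < r.num.natAbs := by exact_mod_cast hrn
    have h0' : (0 : ℝ) < x.den := by exact_mod_cast x.pos
    have h0'' : (0 : ℝ) < y.num.natAbs := by exact_mod_cast hyn
    rw [← Real.log_pow, ← Real.log_mul h0.ne' h0'.ne']
    apply Real.log_le_log (by positivity)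
    exact_mod_cast Nat.le_of_dvd (by have := x.pos; positivity) hnum
  have l2 : B * Real.log y.den ≤ Real.log r.den + Real.log x.num.natAbs := by
    have h0 : (0 : ℝ) < r.den := by exact_mod_cast r.pos
    have h0' : (0 : ℝ) < x.num.natAbs := by exact_mod_cast hxn
    have h0'' : (0 : ℝ) < y.den := by exact_mod_cast y.pos
    rw [← Real.log_pow, ← Real.log_mul h0.ne' h0'.ne']
    apply Real.log_le_log (by positivity)
    exact_mod_cast Nat.le_of_dvd (by have := r.pos; positivity) hden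
  have hhx := ht_nonneg x
  have b1 : ∀ q : ℚ, q ≠ 0 → Real.log q.num.natAbs ≤ ht q := by
    intro q hq
    have : (0 : ℝ) < q.num.natAbs := by exact_mod_cast Int.natAbs_pos.2 (Rat.num_ne_zero.2 hq)
    apply Real.log_le_log this
    rw [Nat.cast_natAbs]
    simp
  have b2 : ∀ q : ℚ, Real.log q.den ≤ ht q := by
    intro q
    have : (0 : ℝ) < q.den := by exact_mod_cast q.pos
    exact Real.log_le_log this (le_max_right _ _)
  have c1 := b1 x hx
  have c2 := b2 x
  have c3 := b1 r hr0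
  have c4 := b2 r
  have hy' : ht y = Real.log y.num.natAbs ∨ ht y = Real.log y.den := by
    unfold ht
    rcases max_choice |(y.num : ℝ)| (y.den : ℝ) with h | h
    · left; rw [h, Nat.cast_natAbs]; simp
    · right; rw [h]
  rcases hy' with h | h
  · rw [h]; linarith
  · rw [h]; linarith

/-- the exponent `5/4` suffices for every `B ≥ 3` -/
lemma ineq_of_abc54 {κ : ℝ} (hκ : 1 ≤ κ) (h : AbcWith (5 / 4) κ) {ε : ℝ} (hε : 0 < ε)
    {B : ℕ} (hB : 3 ≤ B) : Ineq ε 25 (6 * Real.log κ) B := by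
  intro x y hx hy _ hN
  obtain ⟨h1, h2⟩ := bounds hκ h (by norm_num) hx hy hN
  rw [lhs_eq hN, rad_sum hN]
  refine h2.trans ?_
  have hB0 : (3 : ℝ) ≤ B := by exact_mod_cast hB
  have hhx := ht_nonneg x
  have hhy := ht_nonneg y
  have hlκ : 0 ≤ Real.log κ := Real.log_nonneg hκ
  have hR : 0 ≤ Real.log (rad (x * y ^ B + 1).num.natAbs) := by
    apply Real.log_nonneg
    exact_mod_cast rad_pos _
  set R := Real.log (rad (x * y ^ B + 1).num.natAbs)
  have h3 : B * ht y ≤ 2 * ht x + ht (x * y ^ B) := ht_lower hx hy B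
  have h4 : 3 * ht y ≤ B * ht y := mul_le_mul_of_nonneg_right hB0 hhy
  have h5 : ht y ≤ 2 * Real.log κ + 9 * ht x + 5 / 2 * R := by linarith
  have e1 : 25 * ht x ≤ B * (25 * ht x) := by nlinarith
  have e2 : 0 ≤ B * (ε * ht y) := by positivity
  have e3 : (8 : ℝ) ≤ B * (25 * B + ε) := by nlinarith
  have e4 : 8 * R ≤ B * (25 * B + ε) * R := mul_le_mul_of_nonneg_right e3 hR
  have e6 : 1 * (6 * Real.log κ) ≤ B * (25 * B + ε) * (6 * Real.log κ) :=
    mul_le_mul_of_nonneg_right (by linarith) (by positivity)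
  nlinarith

/-- `∏ p^(e mod B)` -/
def low (B n : ℕ) : ℕ := ∏ p ∈ n.primeFactors, p ^ (n.factorization p % B)
/-- `∏ p^(e div B)` -/
def high (B n : ℕ) : ℕ := ∏ p ∈ n.primeFactors, p ^ (n.factorization p / B)

lemma low_mul_high {B n : ℕ} (hn : n ≠ 0) : low B n * high B n ^ B = n := by
  unfold low high
  rw [← Finset.prod_pow, ← Finset.prod_mul_distrib]
  conv_rhs => rw [← Nat.prod_factorization_pow_eq_self hn]
  rw [Finsupp.prod, Nat.support_factorization]
  refine Finset.prod_congr rfl fun p _ => ?_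
  rw [← pow_mul, ← pow_add]
  congr 1
  rw [mul_comm]
  exact Nat.mod_add_div _ _

lemma low_le {B n : ℕ} (hB : 0 < B) : low B n ≤ rad n ^ B := by
  unfold low rad
  rw [← Finset.prod_pow]
  refine Finset.prod_le_prod' fun p hp => ?_
  exact Nat.pow_le_pow_right (Nat.prime_of_mem_primeFactors hp).pos (Nat.mod_lt _ hB).le

lemma low_pos (B n : ℕ) : 0 < low B n :=
  Finset.prod_pos fun _ hp => pow_pos (Nat.prime_of_mem_primeFactors hp).pos _

lemma high_pos (B n : ℕ) : 0 < high B n :=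
  Finset.prod_pos fun _ hp => pow_pos (Nat.prime_of_mem_primeFactors hp).pos _

lemma num_div {m n : ℕ} (hn : 0 < n) (h : Nat.Coprime m n) : ((m : ℚ) / n).num = m := by
  have := Rat.num_div_eq_of_coprime (a := (m : ℤ)) (b := (n : ℤ)) (by exact_mod_cast hn)
    (by simpa using h)
  simpa using this

lemma den_div {m n : ℕ} (hn : 0 < n) (h : Nat.Coprime m n) : ((m : ℚ) / n).den = n := by
  have := Rat.den_div_eq_of_coprime (a := (m : ℤ)) (b := (n : ℤ)) (by exact_mod_cast hn)
    (by simpa using h)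
  have h' : (((m : ℚ) / n).den : ℤ) = (n : ℤ) := by simpa using this
  exact Nat.cast_injective h'

lemma ht_div {m n : ℕ} (hn : 0 < n) (h : Nat.Coprime m n) :
    ht ((m : ℚ) / n) = Real.log (max m n) := by
  unfold ht
  rw [num_div hn h, den_div hn h]
  simp

/-- Philippon's inequality implies abc with an explicit exponent. -/
lemma abc_of_ineq {ε α β : ℝ} {B : ℕ} (hε : 0 < ε) (hε1 : ε < 1) (hα : 0 ≤ α) (hβ : 0 ≤ β)
    (hB : 0 < B) (h : Ineq ε α β B) :
    AbcWith (2 * (B * (α * B + ε)) / (1 - ε))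
      (2 * Real.exp (B * (α * B + ε) * β / (1 - ε))) := by
  intro a b c ha hb hab hc
  subst hc
  have hBR : (0 : ℝ) < B := by exact_mod_cast hB
  set T : ℝ := B * (α * B + ε) with hT
  have hT0 : 0 < T := by positivity
  have h1ε : 0 < 1 - ε := by linarith
  have hRn : 0 < rad (a * b * (a + b)) := rad_pos _
  have hR1 : (1 : ℝ) ≤ rad (a * b * (a + b)) := by exact_mod_cast hRn
  have hpow : (1 : ℝ) ≤ (rad (a * b * (a + b)) : ℝ) ^ (2 * T / (1 - ε)) :=
    Real.one_le_rpow hR1 (by positivity)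
  have hexp : (1 : ℝ) ≤ Real.exp (T * β / (1 - ε)) := Real.one_le_exp (by positivity)
  by_cases hab1 : a = b
  · -- a = b = 1
    subst hab1
    have ha1 : a = 1 := (Nat.coprime_self a).1 hab
    have : ((a + a : ℕ) : ℝ) = 2 := by rw [ha1]; norm_num
    rw [this]
    nlinarith
  set x : ℚ := (low B a : ℚ) / low B b with hx
  set y : ℚ := (high B a : ℚ) / high B b with hy
  have hla := low_pos B a
  have hlb := low_pos B b
  have hha := high_pos B a
  have hhb := high_pos B b
  have hx0 : x ≠ 0 := by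
    rw [hx]; positivity
  have hy0 : y ≠ 0 := by
    rw [hy]; positivity
  have hxy : x * y ^ B = (a : ℚ) / b := by
    rw [hx, hy, div_pow, div_mul_div_comm]
    have e1 : (low B a : ℚ) * (high B a : ℚ) ^ B = a := by exact_mod_cast low_mul_high ha.ne'
    have e2 : (low B b : ℚ) * (high B b : ℚ) ^ B = b := by exact_mod_cast low_mul_high hb.ne'
    rw [e1, e2]
  have hbQ : (b : ℚ) ≠ 0 := by exact_mod_cast hb.ne'
  have hne1 : x * y ^ B ≠ 1 := by
    rw [hxy]
    intro h1
    rw [div_eq_one_iff_eq hbQ] at h1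
    exact hab1 (by exact_mod_cast h1)
  have hne0 : x * y ^ B + 1 ≠ 0 := by
    rw [hxy]; positivity
  have key := h x y hx0 hy0 hne1 hne0
  rw [lhs_eq hne0, rad_sum hne0, hxy] at key
  have hnum : ((a : ℚ) / b + 1).num.natAbs = a + b := by
    rw [num_add_one, num_div hb hab, den_div hb hab]
    omega
  rw [hnum] at key
  -- heights
  have hcopl : Nat.Coprime (low B a) (low B b) :=
    Nat.Coprime.coprime_dvd_left (Dvd.intro _ (low_mul_high ha.ne'))
      (Nat.Coprime.coprime_dvd_right (Dvd.intro _ (low_mul_high hb.ne')) hab)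
  have hdva : high B a ∣ a := by
    conv_rhs => rw [← low_mul_high (B := B) ha.ne']
    exact dvd_mul_of_dvd_right (dvd_pow_self _ hB.ne') _
  have hdvb : high B b ∣ b := by
    conv_rhs => rw [← low_mul_high (B := B) hb.ne']
    exact dvd_mul_of_dvd_right (dvd_pow_self _ hB.ne') _
  have hcoph : Nat.Coprime (high B a) (high B b) :=
    Nat.Coprime.coprime_dvd_left hdva (Nat.Coprime.coprime_dvd_right hdvb hab)
  have hrad_a : rad a ≤ rad (a * b * (a + b)) :=
    rad_le_of_dvd (Dvd.intro _ (by ring : a * (b * (a + b)) = _)) (by positivity)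
  have hrad_b : rad b ≤ rad (a * b * (a + b)) :=
    rad_le_of_dvd (Dvd.intro _ (by ring : b * (a * (a + b)) = _)) (by positivity)
  have hrad_c : rad (a + b) ≤ rad (a * b * (a + b)) :=
    rad_le_of_dvd (Dvd.intro_left _ rfl) (by positivity)
  set R : ℕ := rad (a * b * (a + b)) with hR
  have hlogR : 0 ≤ Real.log R := Real.log_nonneg hR1
  have hhx : ht x ≤ B * Real.log R := by
    rw [hx, ht_div hlb hcopl, ← Real.log_pow]
    apply Real.log_le_log (by positivity)
    have e1 : low B a ≤ R ^ B := (low_le hB).trans (Nat.pow_le_pow_left hrad_a _)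
    have e2 : low B b ≤ R ^ B := (low_le hB).trans (Nat.pow_le_pow_left hrad_b _)
    exact_mod_cast max_le e1 e2
  have hhy : B * ht y ≤ Real.log ((a + b : ℕ) : ℝ) := by
    rw [hy, ht_div hhb hcoph, ← Real.log_pow]
    apply Real.log_le_log (by positivity)
    have e1 : high B a ^ B ≤ a + b := by
      calc high B a ^ B ≤ low B a * high B a ^ B := Nat.le_mul_of_pos_left _ hla
        _ = a := low_mul_high ha.ne'
        _ ≤ a + b := by omega
    have e2 : high B b ^ B ≤ a + b := by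
      calc high B b ^ B ≤ low B b * high B b ^ B := Nat.le_mul_of_pos_left _ hlb
        _ = b := low_mul_high hb.ne'
        _ ≤ a + b := by omega
    rcases max_choice (high B a) (high B b) with h' | h'
    · have : (max (high B a) (high B b)) ^ B ≤ a + b := by rw [h']; exact e1
      exact_mod_cast this
    · have : (max (high B a) (high B b)) ^ B ≤ a + b := by rw [h']; exact e2
      exact_mod_cast this
  have hlogc : Real.log (rad (a + b)) ≤ Real.log R := by
    apply Real.log_le_log (by exact_mod_cast rad_pos _)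
    exact_mod_cast hrad_c
  set L : ℝ := Real.log ((a + b : ℕ) : ℝ) with hL
  have k1 : (B : ℝ) * (α * ht x) ≤ T * Real.log R := by
    have : (B : ℝ) * (α * ht x) ≤ B * (α * (B * Real.log R)) := by gcongr
    refine this.trans ?_
    rw [hT]
    have : 0 ≤ B * ε * Real.log R := by positivity
    nlinarith
  have k2 : (B : ℝ) * (ε * ht y) ≤ ε * L := by
    have := mul_le_mul_of_nonneg_left hhy hε.le
    linarith
  have k3 : (B : ℝ) * ((α * B + ε) * (β + Real.log (rad (a + b)))) ≤ T * (β + Real.log R) := by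
    rw [hT, ← mul_assoc]
    gcongr
  have k4 : (1 - ε) * L ≤ T * β + 2 * T * Real.log R := by
    have : L ≤ T * Real.log R + ε * L + T * (β + Real.log R) := by
      calc L ≤ _ := key
        _ = (B : ℝ) * (α * ht x) + (B : ℝ) * (ε * ht y) +
          (B : ℝ) * ((α * B + ε) * (β + Real.log (rad (a + b)))) := by ring
        _ ≤ _ := by linarith
    linarith
  have k5 : L ≤ T * β / (1 - ε) + 2 * T / (1 - ε) * Real.log R := by
    rw [← sub_nonneg]
    have : T * β / (1 - ε) + 2 * T / (1 - ε) * Real.log R - L =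
        (T * β + 2 * T * Real.log R - (1 - ε) * L) / (1 - ε) := by
      field_simp
    rw [this]
    exact div_nonneg (by linarith) h1ε.le
  have hc0 : (0 : ℝ) < ((a + b : ℕ) : ℝ) := by positivity
  have hRpos : (0 : ℝ) < R := by linarith
  calc ((a + b : ℕ) : ℝ) = Real.exp L := (Real.exp_log hc0).symm
    _ ≤ Real.exp (T * β / (1 - ε) + 2 * T / (1 - ε) * Real.log R) := Real.exp_le_exp.2 k5
    _ = Real.exp (T * β / (1 - ε)) * (R : ℝ) ^ (2 * T / (1 - ε)) := by
      rw [Real.exp_add, Real.rpow_def_of_pos hRpos, mul_comm (Real.log R)]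
    _ ≤ 2 * Real.exp (T * β / (1 - ε)) * (R : ℝ) ^ (2 * T / (1 - ε)) := by
      have : 0 ≤ Real.exp (T * β / (1 - ε)) * (R : ℝ) ^ (2 * T / (1 - ε)) := by positivity
      linarith

/-- odd solutions of `7 u^2 + v^2 = 2^n` -/
lemma ramanujan (n : ℕ) : ∃ u v : ℕ, Odd u ∧ Odd v ∧ 7 * u ^ 2 + v ^ 2 = 2 ^ (n + 3) := by
  induction n with
  | zero => exact ⟨1, 1, odd_one, odd_one, by norm_num⟩
  | succ n ih =>
    obtain ⟨u, v, hu, hv, h⟩ := ih
    -- work with integers
    obtain ⟨k, hk⟩ := hu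
    obtain ⟨l, hl⟩ := hv
    have hZ : (7 : ℤ) * (u : ℤ) ^ 2 + (v : ℤ) ^ 2 = 2 ^ (n + 3) := by exact_mod_cast h
    have hk' : (u : ℤ) = 2 * k + 1 := by exact_mod_cast hk
    have hl' : (v : ℤ) = 2 * l + 1 := by exact_mod_cast hl
    -- two candidates: ((u+v)/2, (7u-v)/2), ((u-v)/2, (7u+v)/2)
    have main : ∀ U V : ℤ, U % 2 = 1 → 7 * U ^ 2 + V ^ 2 = 2 ^ (n + 1 + 3) →
        ∃ u v : ℕ, Odd u ∧ Odd v ∧ 7 * u ^ 2 + v ^ 2 = 2 ^ (n + 1 + 3) := by
      intro U V hU hUV
      refine ⟨U.natAbs, V.natAbs, ?_, ?_, ?_⟩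
      · rw [Int.natAbs_odd]; exact Int.odd_iff.2 hU
      · rw [Int.natAbs_odd]
        by_contra hV
        rw [Int.not_odd_iff_even] at hV
        have h1 : Odd (7 * U ^ 2 + V ^ 2) :=
          ((by decide : Odd (7 : ℤ)).mul (Int.odd_iff.2 hU).pow).add_even
            (hV.pow_of_ne_zero two_ne_zero)
        rw [hUV] at h1
        exact (Int.not_even_iff_odd.2 h1) ((even_two).pow_of_ne_zero (by omega))
      · zify
        simpa using hUV
    rcases Int.emod_two_eq_zero_or_one ((k : ℤ) + l) with hkl | hkl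
    · -- (u + v)/2 = k + l + 1 odd
      refine main (k + l + 1) (7 * k - l + 3) (by omega) ?_
      have : (2 : ℤ) ^ (n + 1 + 3) = 2 * 2 ^ (n + 3) := by ring
      rw [this, ← hZ, hk', hl']
      ring
    · -- (u - v)/2 = k - l odd
      refine main (k - l) (7 * k + l + 4) (by omega) ?_
      have : (2 : ℤ) ^ (n + 1 + 3) = 2 * 2 ^ (n + 3) := by ring
      rw [this, ← hZ, hk', hl']
      ring

/-- the pairs for `B = 1` and `B = 2` -/
lemma family {B : ℕ} (hB : 0 < B) (hB2 : B ≤ 2) : ∃ x : ℚ, x ≠ 0 ∧ ∀ n : ℕ, ∃ y : ℚ, y ≠ 0 ∧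
    (x * y ^ B + 1).num = 2 ^ (n + 4) ∧ B * ht y ≤ Real.log ((2 : ℝ) ^ (n + 4)) := by
  rcases (by omega : B = 1 ∨ B = 2) with rfl | rfl
  · refine ⟨1, one_ne_zero, fun n => ⟨2 ^ (n + 4) - 1, ?_, ?_, ?_⟩⟩
    · have : (1 : ℚ) < 2 ^ (n + 4) := one_lt_pow₀ (by norm_num) (by omega)
      exact (sub_pos.2 this).ne'
    · have : (1 : ℚ) * (2 ^ (n + 4) - 1) ^ 1 + 1 = ((2 ^ (n + 4) : ℤ) : ℚ) := by push_cast; ring
      rw [this, Rat.num_intCast]
    · have e : ((2 : ℚ) ^ (n + 4) - 1) = ((2 ^ (n + 4) - 1 : ℤ) : ℚ) := by push_cast; ring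
      have h1 : (1 : ℝ) < 2 ^ (n + 4) := one_lt_pow₀ (by norm_num) (by omega)
      unfold ht
      rw [e, Rat.num_intCast, Rat.den_intCast]
      push_cast
      rw [one_mul]
      apply Real.log_le_log
      · exact lt_max_of_lt_right (by norm_num)
      · apply max_le _ h1.le
        rw [abs_of_pos (by linarith)]
        linarith
  · refine ⟨7, by norm_num, fun n => ?_⟩
    obtain ⟨u, v, hu, hv, huv⟩ := ramanujan (n + 1)
    have hu0 : 0 < u := hu.pos
    have hv0 : 0 < v := hv.pos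
    have hvQ : (v : ℚ) ≠ 0 := by exact_mod_cast hv0.ne'
    have hcop : Nat.Coprime u v := by
      rw [Nat.coprime_iff_gcd_eq_one]
      by_contra hg
      obtain ⟨p, hp, hpg⟩ := Nat.exists_prime_and_dvd hg
      have hpu : p ∣ u := hpg.trans (Nat.gcd_dvd_left _ _)
      have hpv : p ∣ v := hpg.trans (Nat.gcd_dvd_right _ _)
      have h1 : p ∣ 2 ^ (n + 1 + 3) := by
        rw [← huv]
        exact dvd_add (dvd_mul_of_dvd_right (dvd_pow hpu two_ne_zero) _)
          (dvd_pow hpv two_ne_zero)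
      have h2 : p = 2 := (Nat.prime_dvd_prime_iff_eq hp Nat.prime_two).1 (hp.dvd_of_dvd_pow h1)
      rw [h2] at hpv
      exact (Nat.not_even_iff_odd.2 hv) (even_iff_two_dvd.2 hpv)
    refine ⟨(u : ℚ) / v, by positivity, ?_, ?_⟩
    · have e : (7 : ℚ) * ((u : ℚ) / v) ^ 2 + 1 = ((2 ^ (n + 4) : ℕ) : ℚ) / ((v ^ 2 : ℕ) : ℚ) := by
        have : (7 : ℚ) * u ^ 2 + v ^ 2 = ((2 ^ (n + 4) : ℕ) : ℚ) := by
          rw [show n + 4 = n + 1 + 3 by ring, ← huv]; push_cast; ring
        rw [← this]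
        push_cast
        field_simp
      have hc : Nat.Coprime (2 ^ (n + 4)) (v ^ 2) := by
        apply Nat.Coprime.pow
        exact (Nat.coprime_two_left).2 hv
      rw [e, num_div (by positivity) hc]
      push_cast
      ring
    · rw [ht_div hv0 hcop, ← Real.log_pow]
      have hm : (max u v) ^ 2 ≤ 2 ^ (n + 4) := by
        rw [show n + 4 = n + 1 + 3 by ring, ← huv]
        rcases max_choice u v with h | h <;> rw [h] <;> nlinarith [sq_nonneg u, sq_nonneg v]
      apply Real.log_le_log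
      · have : 0 < max u v := lt_max_of_lt_left hu0
        positivity
      · exact_mod_cast hm

/-- Philippon's inequality fails for `B = 1` and `B = 2`. -/
lemma not_ineq {ε α β : ℝ} {B : ℕ} (hε : 0 < ε) (hε1 : ε < 1) (hB : 0 < B) (hB2 : B ≤ 2) :
    ¬ Ineq ε α β B := by
  intro h
  obtain ⟨x, hx, hfam⟩ := family hB hB2
  set C : ℝ := B * (α * ht x + (α * B + ε) * (β + Real.log 2)) with hC
  have hlog2 : 0 < Real.log 2 := Real.log_pos (by norm_num)
  have hpos : 0 < (1 - ε) * Real.log 2 := by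
    have : 0 < 1 - ε := by linarith
    positivity
  obtain ⟨n, hn⟩ := exists_nat_gt (C / ((1 - ε) * Real.log 2))
  rw [div_lt_iff₀ hpos] at hn
  obtain ⟨y, hy, hnum, hht⟩ := hfam n
  have hne1 : x * y ^ B ≠ 1 := by
    intro h1
    rw [h1] at hnum
    have h2 : ((1 : ℚ) + 1).num = 2 := by
      rw [show (1 : ℚ) + 1 = ((2 : ℤ) : ℚ) by norm_num, Rat.num_intCast]
    rw [h2] at hnum
    have h3 : (2 : ℤ) ^ 1 < 2 ^ (n + 4) := pow_lt_pow_right₀ (by norm_num) (by omega)
    omega
  have hne0 : x * y ^ B + 1 ≠ 0 := by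
    intro h1
    rw [h1, Rat.num_zero] at hnum
    have h3 : (0 : ℤ) < 2 ^ (n + 4) := by positivity
    omega
  have key := h x y hx hy hne1 hne0
  rw [lhs_eq hne0, rad_sum hne0, hnum] at key
  have e1 : ((2 : ℤ) ^ (n + 4)).natAbs = 2 ^ (n + 4) := by
    rw [Int.natAbs_pow]; rfl
  have e2 : rad (2 ^ (n + 4)) = 2 := by
    unfold rad
    rw [Nat.primeFactors_prime_pow (by omega) Nat.prime_two]
    simp
  rw [e1, e2] at key
  push_cast at key
  rw [Real.log_pow] at key hht
  push_cast at key hht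
  have k1 : ε * (B * ht y) ≤ ε * ((n + 4) * Real.log 2) := mul_le_mul_of_nonneg_left hht hε.le
  have k2 : (B : ℝ) * (α * ht x + ε * ht y + (α * B + ε) * (β + Real.log 2)) =
      C + ε * (B * ht y) := by rw [hC]; ring
  rw [k2] at key
  have k3 : (1 - ε) * ((n + 4) * Real.log 2) ≤ C := by linarith
  have k4 : (n : ℝ) * ((1 - ε) * Real.log 2) ≤ (1 - ε) * ((n + 4) * Real.log 2) := by nlinarith
  linarith

end Pool.Agent.H78R2.Phil
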